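import Pool.Agent.H55.Cos.Stmts

/-!
Module E2 of project COS: Baire argument.
-/

namespace Pool.Agent.H55.Cos

open Set Filter Topology

theorem cos_e2 (h1 : E1Stmt) (hNBX : NBXStmt) (h3 : CAN3Stmt) (h5 : CAN5Stmt) : E2Stmt := by
  intro U V hP c l hl s
  -- the slices
  let E : List ℕ → Set Cant := fun d => {x | ((c, l, x, nd d) : XX) ∈ U ∪ V}
  have hdense : ∀ d, Dense (interior (E d)) := by
    intro d
    rw [dense_iff_inter_open]
    intro O hO hne
    obtain ⟨t, ht⟩ := h3 O hO hne
    obtain ⟨x, hx, hxi, hxU⟩ := h1 U V hP c l hl d t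
    refine ⟨x, ht hx, ?_⟩
    have hnear : ∀ W : Set XX, @IsOpen XX tauU W → ((c, l, x, nd d) : XX) ∈ W → W ⊆ U ∪ V →
        x ∈ interior (E d) := by
      intro W hW hxW hWU
      obtain ⟨N, hN, η, hη, h⟩ := hNBX W hW (c, l, x, nd d) hxW hxi (not_inf_nd d)
      have hcont : Continuous (fun x' : Cant => ((c, l, x', nd d) : XX)) := by fun_prop
      have hN' : (fun x' : Cant => ((c, l, x', nd d) : XX)) ⁻¹' N ∈ 𝓝 x :=
        hcont.continuousAt.preimage_mem_nhds hN
      refine mem_interior_iff_mem_nhds.mpr (Filter.mem_of_superset hN' fun x' hx' => hWU ?_)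
      refine h _ hx' ?_
      show |g2 ((c, l, x', nd d) : XX) - g2 ((c, l, x, nd d) : XX)| < η
      have : g2 ((c, l, x', nd d) : XX) = g2 ((c, l, x, nd d) : XX) := rfl
      rw [this, sub_self, abs_zero]
      exact hη
    rcases hxU with hxU | hxU
    · exact hnear U hP.oU hxU subset_union_left
    · exact hnear V hP.oV hxU subset_union_right
  let e : ℕ → List ℕ := fun n => (Encodable.decode n).getD []
  obtain ⟨x, hx, hxi, hW⟩ := h5 (fun n => interior (E (e n))) (fun n => isOpen_interior)
    (fun n => hdense _) s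
  refine ⟨x, hx, hxi, fun d => ?_⟩
  have h := interior_subset (hW (Encodable.encode d))
  have he : e (Encodable.encode d) = d := by
    simp [e]
  rw [he] at h
  exact h

end Pool.Agent.H55.Cos
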