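import Pool.Agent.H55.Cos.Stmts

/-!
Modules NBX, NBW, NBI of project COS (neighbourhoods in the final topology).
-/

namespace Pool.Agent.H55.Cos

open Set Filter Topology

theorem phi_none_cont (z : XX) : ContinuousAt (phi none) z := by
  show ContinuousAt (fun _ : XX => (1 : ℝ)) z
  exact continuousAt_const

theorem cos_nbx (h1 : NBHStmt) (h2 : ACTAStmt) (h3 : ACTBStmt) : NBXStmt := by
  intro U hU z hz hx hy
  obtain ⟨O, hO, η, hη, s, hs, h⟩ := h1 Set.univ U hU z hz
  refine ⟨O, hO, η, hη, fun z' hz' hg => h z' hz' ?_⟩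
  intro i hi
  have hc := (hs i hi).2
  match i, hc with
  | none, hc => exact absurd (phi_none_cont z) hc
  | some (Sum.inl false), hc => exact absurd (h2.1 z hx) hc
  | some (Sum.inl true), _ => exact hg
  | some (Sum.inr c), hc => exact absurd (h3 c z (Or.inr (Or.inr (Or.inl hy)))) hc

theorem cos_nbi (h1 : NBHStmt) (h2 : ACTAStmt) (h3 : ACTBStmt) : NBIStmt := by
  intro U hU z hz hl hx hy
  obtain ⟨O, hO, η, hη, s, hs, h⟩ := h1 Set.univ U hU z hz
  refine Filter.mem_of_superset hO fun z' hz' => h z' hz' ?_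
  intro i hi
  have hc := (hs i hi).2
  match i, hc with
  | none, hc => exact absurd (phi_none_cont z) hc
  | some (Sum.inl false), hc => exact absurd (h2.1 z hx) hc
  | some (Sum.inl true), hc => exact absurd (h2.2 z hy) hc
  | some (Sum.inr c), hc => exact absurd (h3 c z (Or.inl hl)) hc

theorem cos_nbw (h1 : NBHStmt) (h2 : ACTAStmt) (h3 : ACTBStmt) : NBWStmt := by
  intro c S A B hG hf U hU s hs
  obtain ⟨O, hO, η, hη, t, ht, h⟩ := h1 Set.univ U hU (S.w s) hs
  refine ⟨O, hO, η, hη, fun z' hz' hg => h z' hz' ?_⟩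
  intro i hi
  have hc := (ht i hi).2
  match i, hc with
  | none, hc => exact absurd (phi_none_cont _) hc
  | some (Sum.inl false), hc => exact absurd (h2.1 _ (hG.xinf s)) hc
  | some (Sum.inl true), hc => exact absurd (h2.2 _ (hG.yinf s)) hc
  | some (Sum.inr c'), hc =>
    by_cases hcc : c' = c
    · subst hcc
      show |fc c' z' - fc c' (S.w s)| < η
      rw [hf, S.f_node]
      exact hg
    · refine absurd (h3 c' _ (Or.inr (Or.inr (Or.inr ?_)))) hc
      rw [hG.tag s]
      exact fun h => hcc h.symm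

end Pool.Agent.H55.Cos
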